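import Pool.Agent.H812R2.SSE.Comp

/-!
# SE = SSE over `ℕ` when every irreducible component is a full shift or a periodic orbit

For square matrices over `ℤ⁺` each of whose irreducible components is strong shift equivalent to a
`1 × 1` matrix `[m]` or to a cyclic permutation matrix (in particular for all triangular matrices
and for all matrices of spectral radius at most one), shift equivalence over `ℤ⁺` implies strong
shift equivalence over `ℤ⁺`.
-/

set_option autoImplicit false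

namespace Pool.Agent.Results.MP_993212_an.FullShiftComponentsSSE

open Matrix

/-- Elementary equivalence of square matrices over `ℕ`: `A = RS`, `B = SR`. -/
def Elem (X Y : Σ n : ℕ, Matrix (Fin n) (Fin n) ℕ) : Prop :=
  ∃ (R : Matrix (Fin X.1) (Fin Y.1) ℕ) (S : Matrix (Fin Y.1) (Fin X.1) ℕ),
    X.2 = R * S ∧ Y.2 = S * R

/-- Strong shift equivalence over `ℕ` (a finite chain of elementary equivalences). -/
def SSE {n m : ℕ} (A : Matrix (Fin n) (Fin n) ℕ) (B : Matrix (Fin m) (Fin m) ℕ) : Prop :=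
  Relation.TransGen Elem ⟨n, A⟩ ⟨m, B⟩

/-- `R, S` is a shift equivalence of lag `l` from `A` to `B`. -/
def IsSE {n m : ℕ} (A : Matrix (Fin n) (Fin n) ℕ) (B : Matrix (Fin m) (Fin m) ℕ)
    (l : ℕ) (R : Matrix (Fin n) (Fin m) ℕ) (S : Matrix (Fin m) (Fin n) ℕ) : Prop :=
  1 ≤ l ∧ R * S = A ^ l ∧ S * R = B ^ l ∧ A * R = R * B ∧ S * A = B * S

/-- Shift equivalence over `ℕ`. -/
def SE {n m : ℕ} (A : Matrix (Fin n) (Fin n) ℕ) (B : Matrix (Fin m) (Fin m) ℕ) : Prop :=
  ∃ l R S, IsSE A B l R S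

/-- The `1 × 1` matrix `[m]` (the full `m`-shift; for `m = 0` a state without loop). -/
def full (m : ℕ) : Matrix (Fin 1) (Fin 1) ℕ := fun _ _ => m

/-- The cyclic `m × m` permutation matrix (one periodic orbit). -/
def cyc (m : ℕ) : Matrix (Fin m) (Fin m) ℕ := fun i j => if j = finRotate m i then 1 else 0

/-- Every irreducible component of `A` (the submatrix on the set of all states `j` which can be
reached from `i` and from which `i` can be reached, for any state `i`) is strong shift equivalent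
to some `[m]` or to some cyclic permutation matrix. -/
def FullOrCycleComponents {n : ℕ} (A : Matrix (Fin n) (Fin n) ℕ) : Prop :=
  ∀ i : Fin n, ∃ (k : ℕ) (f : Fin k → Fin n), Function.Injective f ∧
    (∀ j, j ∈ Set.range f ↔ (∃ p, (A ^ p) i j ≠ 0) ∧ ∃ p, (A ^ p) j i ≠ 0) ∧
    ((∃ m, SSE (A.submatrix f f) (full m)) ∨ ∃ m, SSE (A.submatrix f f) (cyc m))

/-- Topological entropy zero: the numbers of paths grow subexponentially (equivalently, the
spectral radius is at most one). -/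
def ZeroEntropy {n : ℕ} (A : Matrix (Fin n) (Fin n) ℕ) : Prop :=
  ∀ c : ℝ, 1 < c → ∃ C : ℝ, ∀ (N : ℕ) (i j : Fin n), ((A ^ N) i j : ℝ) ≤ C * c ^ N

/-- `Chain X Y ρ`: a chain of elementary equivalences `X = X₀, …, X_k = Y`, `X_{i-1} = R_i S_i`,
`X_i = S_i R_i`, with `ρ = R₁ ⋯ R_k`. -/
inductive Chain : (X Y : Σ n : ℕ, Matrix (Fin n) (Fin n) ℕ) → Matrix (Fin X.1) (Fin Y.1) ℕ → Prop
  | refl (X : Σ n : ℕ, Matrix (Fin n) (Fin n) ℕ) : Chain X X 1
  | step (X Y Z : Σ n : ℕ, Matrix (Fin n) (Fin n) ℕ) (R : Matrix (Fin X.1) (Fin Y.1) ℕ)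
      (S : Matrix (Fin Y.1) (Fin X.1) ℕ) (ρ : Matrix (Fin Y.1) (Fin Z.1) ℕ)
      (h1 : X.2 = R * S) (h2 : Y.2 = S * R) (h : Chain Y Z ρ) : Chain X Z (R * ρ)

theorem chain_of_ch {X Y : H812R2.SSE.Obj} {ρ : Matrix X.ι Y.ι ℕ} (h : H812R2.SSE.CH X Y ρ) :
    ∀ {n m : ℕ} (e : X.ι ≃ Fin n) (f : Y.ι ≃ Fin m),
      Chain ⟨n, X.M.submatrix e.symm e.symm⟩ ⟨m, Y.M.submatrix f.symm f.symm⟩
        (ρ.submatrix e.symm f.symm) := by
  induction h with
  | refl X =>
    intro n m e f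
    have h := Chain.step ⟨n, X.M.submatrix e.symm e.symm⟩ ⟨m, X.M.submatrix f.symm f.symm⟩ _
      ((1 : Matrix X.ι X.ι ℕ).submatrix e.symm f.symm) (X.M.submatrix f.symm e.symm) 1
      (by rw [Matrix.submatrix_mul_equiv, Matrix.one_mul])
      (by rw [Matrix.submatrix_mul_equiv, Matrix.mul_one]) (Chain.refl _)
    rwa [Matrix.mul_one] at h
  | step X Y Z R S ρ h1 h2 _ ih =>
    intro n m e f
    have h := Chain.step ⟨n, X.M.submatrix e.symm e.symm⟩
      ⟨_, Y.M.submatrix (Fintype.equivFin Y.ι).symm (Fintype.equivFin Y.ι).symm⟩ _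
      (R.submatrix e.symm (Fintype.equivFin Y.ι).symm) (S.submatrix (Fintype.equivFin Y.ι).symm e.symm)
      _ (by rw [Matrix.submatrix_mul_equiv, ← h1]) (by rw [Matrix.submatrix_mul_equiv, ← h2])
      (ih (Fintype.equivFin Y.ι) f)
    rwa [Matrix.submatrix_mul_equiv] at h

theorem ch_of_transGen {X Y : Σ n : ℕ, Matrix (Fin n) (Fin n) ℕ}
    (h : Relation.TransGen Elem X Y) :
    ∃ ρ, H812R2.SSE.CH ⟨Fin X.1, X.2⟩ ⟨Fin Y.1, Y.2⟩ ρ := by
  have h1 : ∀ X Y, Elem X Y → ∃ ρ, H812R2.SSE.CH ⟨Fin X.1, X.2⟩ ⟨Fin Y.1, Y.2⟩ ρ := by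
    rintro X Y ⟨R, S, h1, h2⟩
    exact ⟨R, H812R2.SSE.CH.single (X := ⟨Fin X.1, X.2⟩) (Y := ⟨Fin Y.1, Y.2⟩) R S h1 h2⟩
  induction h with
  | single h => exact h1 _ _ h
  | tail _ h ih =>
    obtain ⟨ρ, c⟩ := ih
    obtain ⟨ρ', c'⟩ := h1 _ _ h
    exact ⟨_, c.trans c'⟩

theorem sse_refl {n : ℕ} (A : Matrix (Fin n) (Fin n) ℕ) : SSE A A :=
  Relation.TransGen.single ⟨A, 1, by simp, by simp⟩

theorem se_iff {n m : ℕ} (A : Matrix (Fin n) (Fin n) ℕ) (B : Matrix (Fin m) (Fin m) ℕ) :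
    SE A B ↔ H812R2.SSE.SE' A B := by
  constructor
  · rintro ⟨l, R, S, hl, h⟩; exact ⟨l, hl, R, S, h⟩
  · rintro ⟨l, hl, R, S, h⟩; exact ⟨l, R, S, hl, h⟩

theorem se_of_sse {n m : ℕ} {A : Matrix (Fin n) (Fin n) ℕ} {B : Matrix (Fin m) (Fin m) ℕ}
    (h : SSE A B) : SE A B :=
  (se_iff A B).2 (H812R2.SSE.se_of_transGen (X := ⟨n, A⟩) (Y := ⟨m, B⟩) h)

theorem sstr_of_good {n : ℕ} {A : Matrix (Fin n) (Fin n) ℕ} (h : FullOrCycleComponents A)
    (i : Fin n) : H812R2.SSE.SStr (H812R2.SSE.compO A i) := by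
  classical
  obtain ⟨k, f, hf, hr, hs⟩ := h i
  let ε : Fin k ≃ {j // H812R2.SSE.Mut A i j} :=
    Equiv.ofBijective (fun a => ⟨f a, (hr (f a)).1 ⟨a, rfl⟩⟩)
      ⟨fun a b hab => hf (congrArg Subtype.val hab), fun j => by
        obtain ⟨a, ha⟩ := (hr j.1).2 j.2
        exact ⟨a, Subtype.ext ha⟩⟩
  have c0 : H812R2.SSE.CH (H812R2.SSE.compO A i) ⟨Fin k, _⟩ _ :=
    @H812R2.SSE.CH.iso _ _ _ _ _ _ ε.symm
      (fun a b : {j // H812R2.SSE.Mut A i j} => A a.1 b.1)
  have e0 : Matrix.submatrix (fun a b : {j // H812R2.SSE.Mut A i j} => A a.1 b.1)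
      ε.symm.symm ε.symm.symm = A.submatrix f f := rfl
  rw [e0] at c0
  refine H812R2.SSE.SStr.of_ch c0 ?_
  rcases hs with ⟨m, hm⟩ | ⟨m, hm⟩
  · obtain ⟨ρ, c⟩ := ch_of_transGen hm
    refine ⟨⟨Fin 1, full m⟩, 1, fun _ => 0, ρ, ⟨fun _ => rfl, ?_, fun _ => Or.inl rfl⟩, c⟩
    intro a b _
    left; exact Subsingleton.elim _ _
  · obtain ⟨ρ, c⟩ := ch_of_transGen hm
    refine ⟨⟨Fin m, cyc m⟩, finRotate m, fun _ => 0, ρ, ⟨fun _ => rfl, ?_, ?_⟩, c⟩
    · intro a b hab
      left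
      by_contra hne
      exact hab (if_neg hne)
    · intro a
      right
      exact if_pos rfl

theorem good_of_str {n : ℕ} {A : Matrix (Fin n) (Fin n) ℕ} {σ : Equiv.Perm (Fin n)}
    {lvl : Fin n → ℕ} (s : H812R2.SSE.Str A σ lvl) : FullOrCycleComponents A := by
  intro i
  by_cases hi : σ i = i
  · refine ⟨1, fun _ => i, fun a b _ => Subsingleton.elim _ _, ?_, Or.inl ⟨A i i, sse_refl _⟩⟩
    intro j
    constructor
    · rintro ⟨_, rfl⟩
      exact ⟨⟨0, by simp⟩, ⟨0, by simp⟩⟩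
    · rintro ⟨⟨k, hk⟩, ⟨l, hl⟩⟩
      refine ⟨0, ?_⟩
      have h1 := s.pow_le k hk
      have h2 := s.pow_le l hl
      have h3 := h1.2 (le_antisymm h1.1 h2.1)
      have : ∀ k : ℕ, (σ ^ k) i = i := by
        intro k
        induction k with
        | zero => simp
        | succ k ih => rw [pow_succ', Equiv.Perm.mul_apply, ih, hi]
      rw [h3, this]
  · have hw : A i (σ i) = 1 := (s.h1 i).resolve_left hi
    have hit : ∀ k : ℕ, σ^[k] i = (σ ^ k) i := fun k => by rw [← Equiv.Perm.iterate_eq_pow]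
    have hp : 0 < Function.minimalPeriod σ i :=
      Function.minimalPeriod_pos_of_mem_periodicPts
        (Function.mk_mem_periodicPts (orderOf_pos σ) (by
          change σ^[orderOf σ] i = i
          rw [hit, pow_orderOf_eq_one]; rfl))
    obtain ⟨p, hpp⟩ : ∃ p, Function.minimalPeriod σ i = p + 1 := ⟨_, (Nat.sub_add_cancel hp).symm⟩
    have hmod : ∀ k : ℕ, (σ ^ (k % (p + 1))) i = (σ ^ k) i := by
      intro k
      rw [← hit, ← hit, ← hpp, Function.iterate_mod_minimalPeriod_eq]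
    have hp1 : (σ ^ (p + 1)) i = i := by rw [← hit, ← hpp]; exact Function.iterate_minimalPeriod
    have hf : Function.Injective (fun a : Fin (p + 1) => (σ ^ (a : ℕ)) i) := by
      intro a b hab
      have h1 : σ^[(a : ℕ)] i = σ^[(b : ℕ)] i := by rw [hit, hit]; exact hab
      have h2 := (Function.iterate_eq_iterate_iff_of_lt_minimalPeriod
        (by rw [hpp]; exact a.2) (by rw [hpp]; exact b.2)).1 h1
      exact Fin.ext h2
    refine ⟨p + 1, fun a => (σ ^ (a : ℕ)) i, hf, ?_, Or.inr ⟨p + 1, ?_⟩⟩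
    · intro j
      constructor
      · rintro ⟨a, rfl⟩
        refine ⟨⟨a, ?_⟩, ⟨p + 1 - a, ?_⟩⟩
        · rw [s.pow_diag, hw, one_pow]; exact one_ne_zero
        · have h1 := s.pow_diag (p + 1 - a) ((σ ^ (a : ℕ)) i)
          rw [← Equiv.Perm.mul_apply, ← pow_add, Nat.sub_add_cancel a.2.le, hp1, s.wt_pow, hw,
            one_pow] at h1
          rw [h1]; exact one_ne_zero
      · rintro ⟨⟨k, hk⟩, ⟨l, hl⟩⟩
        have h1 := s.pow_le k hk
        have h2 := s.pow_le l hl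
        have h3 := h1.2 (le_antisymm h1.1 h2.1)
        refine ⟨⟨k % (p + 1), Nat.mod_lt _ (Nat.succ_pos _)⟩, ?_⟩
        rw [h3]; exact hmod k
    · have hrot : ∀ a : Fin (p + 1), (σ ^ ((finRotate (p + 1) a : Fin (p + 1)) : ℕ)) i =
          σ ((σ ^ (a : ℕ)) i) := by
        intro a
        rw [finRotate_apply, Fin.val_add, hmod, pow_add, ← Equiv.Perm.mul_apply,
          ← pow_succ', Fin.val_one', ← pow_add]
        rw [← hmod (a + 1 % (p + 1)), Nat.add_mod_mod, hmod]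
      have : A.submatrix (fun a : Fin (p + 1) => (σ ^ (a : ℕ)) i)
          (fun a : Fin (p + 1) => (σ ^ (a : ℕ)) i) = cyc (p + 1) := by
        ext a b
        rw [Matrix.submatrix_apply, cyc]
        by_cases hab : b = finRotate (p + 1) a
        · rw [if_pos hab, hab, hrot, s.wt_pow, hw]
        · rw [if_neg hab]
          by_contra hne
          have h1 := (s.le hne).2 (by rw [s.lvl_pow, s.lvl_pow])
          rw [← hrot] at h1
          exact hab (hf h1)
      rw [this]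
      exact sse_refl _

theorem good_of_zero {n : ℕ} (A : Matrix (Fin n) (Fin n) ℕ) (h : ZeroEntropy A) :
    FullOrCycleComponents A := by
  obtain ⟨σ, lvl, s⟩ := H812R2.SSE.str_of_intr A (H812R2.SSE.intr_of_ze A h)
  exact good_of_str s

theorem real {n m : ℕ} (A : Matrix (Fin n) (Fin n) ℕ) (B : Matrix (Fin m) (Fin m) ℕ)
    (hA : FullOrCycleComponents A) (hB : FullOrCycleComponents B) (l : ℕ)
    (R : Matrix (Fin n) (Fin m) ℕ) (S : Matrix (Fin m) (Fin n) ℕ) (h : IsSE A B l R S) :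
    ∃ t, H812R2.SSE.CH ⟨Fin n, A⟩ ⟨Fin m, B⟩ (A ^ t * R) := by
  obtain ⟨hl, h1, h2, h3, h4⟩ := h
  exact H812R2.SSE.real_comp A B (sstr_of_good hA) (sstr_of_good hB) l hl R S h1 h2 h3 h4

theorem main {n m : ℕ} (A : Matrix (Fin n) (Fin n) ℕ) (B : Matrix (Fin m) (Fin m) ℕ)
    (hA : FullOrCycleComponents A) (hB : FullOrCycleComponents B) : SSE A B ↔ SE A B := by
  refine ⟨se_of_sse, ?_⟩
  rintro ⟨l, R, S, h⟩
  obtain ⟨t, c⟩ := real A B hA hB l R S h
  exact H812R2.SSE.transGen_of_ch c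

/-- **Main theorem.**
(1) For matrices over `ℤ⁺` all of whose irreducible components are SSE to full shifts or to
periodic orbits, SSE over `ℤ⁺` and SE over `ℤ⁺` coincide.
(2) Moreover every shift equivalence `(R, S)` between them is realised up to a power of `A`: for
some `t` the matrix `A^t R` is the total product `R₁ ⋯ R_k` of a chain of elementary equivalences
from `A` to `B`.
(3) If `A` has zero entropy, then for every `B` whatsoever `A` and `B` are SSE iff they are SE.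
(4), (5) Zero entropy matrices and triangular matrices belong to the class of (1). -/
theorem result :
    (∀ {n m : ℕ} (A : Matrix (Fin n) (Fin n) ℕ) (B : Matrix (Fin m) (Fin m) ℕ),
      FullOrCycleComponents A → FullOrCycleComponents B → (SSE A B ↔ SE A B)) ∧
    (∀ {n m : ℕ} (A : Matrix (Fin n) (Fin n) ℕ) (B : Matrix (Fin m) (Fin m) ℕ),
      FullOrCycleComponents A → FullOrCycleComponents B → ∀ l R S, IsSE A B l R S →
        ∃ t, Chain ⟨n, A⟩ ⟨m, B⟩ (A ^ t * R)) ∧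
    (∀ {n m : ℕ} (A : Matrix (Fin n) (Fin n) ℕ) (B : Matrix (Fin m) (Fin m) ℕ),
      ZeroEntropy A → (SSE A B ↔ SE A B)) ∧
    (∀ {n : ℕ} (A : Matrix (Fin n) (Fin n) ℕ), ZeroEntropy A → FullOrCycleComponents A) ∧
    (∀ {n : ℕ} (A : Matrix (Fin n) (Fin n) ℕ), (∀ i j, A i j ≠ 0 → i ≤ j) →
      FullOrCycleComponents A) := by
  refine ⟨fun A B hA hB => main A B hA hB, ?_, ?_, fun A hA => good_of_zero A hA, ?_⟩
  · intro n m A B hA hB l R S h
    obtain ⟨t, c⟩ := real A B hA hB l R S h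
    exact ⟨t, chain_of_ch c (Equiv.refl _) (Equiv.refl _)⟩
  · intro n m A B hA
    refine ⟨se_of_sse, fun h => ?_⟩
    have hB : ZeroEntropy B := H812R2.SSE.ZE.of_se (A := A) hA ((se_iff A B).1 h)
    exact (main A B (good_of_zero A hA) (good_of_zero B hB)).2 h
  · intro n A h
    refine good_of_str (σ := 1) (lvl := fun i => i.1) ⟨fun i => rfl, ?_, fun i => Or.inl rfl⟩
    intro i j hij
    rcases (h i j hij).eq_or_lt with h' | h'
    · left; rw [h']; rfl
    · right; exact h'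

end Pool.Agent.Results.MP_993212_an.FullShiftComponentsSSE
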